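import Mathlib
import Pool.Agent.Helper13.JC.Fin

set_option autoImplicit false

namespace Pool.Agent.Results.MP_924f75_nt.CommonClass

open Finset

/-- Every integer `1 ≤ n ≤ y` lies in the class of `a p` modulo `p` for some prime `p ≤ x`. -/
def Covers (x y : ℕ) (a : ℕ → ℤ) : Prop :=
  ∀ n : ℕ, 1 ≤ n → n ≤ y → ∃ p : ℕ, p.Prime ∧ p ≤ x ∧ (n : ℤ) ≡ a p [ZMOD (p : ℤ)]

open Classical in
/-- The sum of `1 / p` over the primes `u < p ≤ v` whose class does not contain `b`. -/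
noncomputable def offSum (a : ℕ → ℤ) (b : ℤ) (u v : ℝ) : ℝ :=
  ∑ p ∈ (Icc 1 ⌊v⌋₊).filter (fun p : ℕ => p.Prime ∧ u < (p : ℝ) ∧ ¬ a p ≡ b [ZMOD (p : ℤ)]),
    1 / (p : ℝ)

/-- Every covering of `[1, y]` by one residue class `a p` for each prime `p ≤ x` satisfies, for
every integer `0 ≤ b ≤ y` and every `t ≥ 2`,
`log (y / x) ≤ C (1 + log t + exp (G) S log x)`, where `G` and `S` are the sums of `1 / p` over the
primes `t < p ≤ x ^ c` and `x ^ c < p ≤ x` with `b` not in the class `a p` modulo `p`. -/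
theorem result : ∃ c C x₀ : ℝ, 0 < c ∧ c < 1 ∧ 0 < C ∧ ∀ x y : ℕ, x₀ ≤ x → ∀ a : ℕ → ℤ,
    Covers x y a → ∀ b : ℕ, b ≤ y → ∀ t : ℝ, 2 ≤ t →
    (y : ℝ) ≤ x * Real.exp (C * (1 + Real.log t + Real.exp (offSum a b t ((x : ℝ) ^ c)) *
      offSum a b ((x : ℝ) ^ c) x * Real.log x)) := by
  obtain ⟨c, C, x₀, hc, hc4, hC, h⟩ := Pool.Agent.Helper13.JC.main_t
    Pool.Agent.Helper60.GP.pB3 Pool.Agent.Helper60.GP.pB4 Pool.Agent.Helper60.GP.pB5
  exact ⟨c, C, x₀, hc, by linarith, hC, h⟩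

end Pool.Agent.Results.MP_924f75_nt.CommonClass
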