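import Pool.Agent.Helper69.RM.All

/-!
# MP_924f75_nt: random classes for the middle primes

Let `1/e < θ < 1`.  For large `x` and `(log log x)^5 ≤ u ≤ log x / (log log x)^2`: if the classes of the primes in
`(x^(1/u), x^θ]` (or in any larger finite set `R` of primes) are chosen at random, then, except for a proportion `1/x` of the
choices, there is no choice whatsoever of the classes of the remaining primes `p ≤ x` for which `[1,y]` is covered,
`y ≥ C x log x / log u`.
-/

set_option autoImplicit false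

namespace Pool.Agent.Results.MP_924f75_nt.RandomMiddle

open Finset

open Classical in
/-- For every `1/e < θ < 1` there are `C > 0` and `X` such that for all `x ≥ X`, all real `u` with
`(log log x)^5 ≤ u` and `u (log log x)^2 ≤ log x`, all `y ≥ C x log x / log u` and every finite set `R` of primes which contains
all primes `p` with `x^(1/u) < p ≤ x^θ`: the number of the choices of one class `a p ∈ {0, ..., p-1}` for each `p ∈ R` for which
there is `b : ℕ → ℕ` with `b p = a p` on `R` and every `1 ≤ m ≤ y` congruent to `b p` modulo some prime `p ≤ x`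
is at most `(1/x) ∏_{p ∈ R} p`. -/
theorem result : ∀ θ : ℝ, Real.exp (-1) < θ → θ < 1 → ∃ C : ℝ, 0 < C ∧ ∃ X : ℕ, ∀ x : ℕ, X ≤ x → ∀ u : ℝ,
    Real.log (Real.log x) ^ 5 ≤ u → u * Real.log (Real.log x) ^ 2 ≤ Real.log x →
    ∀ y : ℕ, C * x * Real.log x / Real.log u ≤ y →
    ∀ R : Finset ℕ, (∀ p ∈ R, p.Prime) →
    (∀ p : ℕ, p.Prime → (x : ℝ) ^ (1 / u) < p → (p : ℝ) ≤ (x : ℝ) ^ θ → p ∈ R) →
    (((R.pi fun p => range p).filter fun a => ∃ b : ℕ → ℕ, (∀ p (hp : p ∈ R), b p = a p hp) ∧
      ∀ m : ℕ, 1 ≤ m → m ≤ y → ∃ p : ℕ, p.Prime ∧ p ≤ x ∧ m ≡ b p [MOD p]).card : ℝ) ≤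
      1 / x * ∏ p ∈ R, (p : ℝ) :=
  Pool.Agent.Helper69.RM.final

end Pool.Agent.Results.MP_924f75_nt.RandomMiddle
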