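import Pool.Agent.Helper13.RS.Asm

/-!
# The limit of the random sieve in the covering problem

The coverings of `[1, y]` by one class `g p` modulo every prime `p ≤ x` which give the known lower bounds for `maxY(x)` (Erdős-Rankin,
Maier-Pomerance, Pintz, Ford-Green-Konyagin-Maynard-Tao) have this form: arbitrary classes for the primes `p ≤ w` (`w` a power
of `log x`), classes chosen at random (or almost at random) for `w < p ≤ z`, the class `0` for `z < p ≤ x / T`, and classes which depend on
all the others for the primes `x / T < p ≤ x`.

The theorem: for every `z`, if the classes for `w < p ≤ z` are independent and uniform then, with probability at least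
`1 - 256 log x / w ≥ 1 - 256 / (log x)²`, no choice of the classes for `p > x / T` gives a covering of `[1, y]` if
`y ≥ C x min (log x log z / (loglog x logloglog x)) ((log x / loglog x) (20 v)^(20 v))`, `v = log x / log z`. In particular (the
two terms are equal for `v` about `loglog x / (20 logloglog x)`) `y ≪ x (log x / loglog x)²` for almost all these coverings and every
`z`, and `y ≪ x log x / loglog x` if `z ≥ x^c` with a fixed `c > 0`.

The proof: a set `D` of numbers `n ≤ y` which are not in the classes of the primes `p ≤ w` and have no prime factor in `(z, x/T]`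
is constructed (products `m q` with a large prime `q` for small `z`, products of small primes for large `z`, a lower bound
sieve of dimension one for the last factor). A random sieve leaves at least half of the expected number of its elements with
high probability (second moment). A class modulo one large prime `p` contains only few of them: the probability that more than
`K₀ + E M_p V` elements of one class modulo `p` survive is smaller than `x^(-2)` (moment of order `K₀`), and there are only `x²` such
classes. So the large primes cannot cover all the survivors.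
-/

set_option autoImplicit false

namespace Pool.Agent.Results.MP_924f75_nt.RandomSieve

open Finset

/-- every integer `1 ≤ n ≤ y` lies in the class of `g p` modulo `p` for some prime `p ≤ x` -/
def Covers (x y : ℕ) (g : ℕ → ℤ) : Prop :=
  ∀ n : ℕ, 1 ≤ n → n ≤ y → ∃ p : ℕ, p.Prime ∧ p ≤ x ∧ (n : ℤ) ≡ g p [ZMOD (p : ℤ)]

open Classical in
/-- the primes in `(w, z]` -/
noncomputable def primesIn (w z : ℝ) : Finset ℕ := (Icc 1 ⌊z⌋₊).filter fun p => p.Prime ∧ w < (p : ℝ)

/-- all choices of one residue `r s ∈ {0, …, s - 1}` for every prime `s ∈ (w, z]` -/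
noncomputable def choices (w z : ℝ) : Finset (↥(primesIn w z) → ℕ) :=
  Fintype.piFinset fun s : ↥(primesIn w z) => range (s : ℕ)

/-- there is a covering of `[1, y]` by one class modulo every prime `p ≤ x`, with the class of `a p` for `p ≤ w`, the class of
`r s` for the primes `s ∈ (w, z]` and the class `0` for the primes `p ∈ (z, x / T]` -/
def Completable (x y : ℕ) (w z T : ℝ) (a : ℕ → ℤ) (r : ↥(primesIn w z) → ℕ) : Prop :=
  ∃ g : ℕ → ℤ, Covers x y g ∧
    (∀ p : ℕ, p.Prime → (p : ℝ) ≤ w → g p ≡ a p [ZMOD (p : ℤ)]) ∧
    (∀ s : ↥(primesIn w z), g s ≡ (r s : ℤ) [ZMOD ((s : ℕ) : ℤ)]) ∧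
    (∀ p : ℕ, p.Prime → z < (p : ℝ) → (p : ℝ) ≤ x / T → (p : ℤ) ∣ g p)

/-- `min (log x log z / (loglog x logloglog x)) ((log x / loglog x) (20 v)^(20 v))` with `v = log x / log z` -/
noncomputable def bound (x : ℕ) (z : ℝ) : ℝ :=
  min (Real.log x * Real.log z / (Real.log (Real.log x) * Real.log (Real.log (Real.log x))))
    (Real.log x / Real.log (Real.log x) *
      (20 * (Real.log x / Real.log z)) ^ (20 * (Real.log x / Real.log z)))

open Classical in
/-- There is an absolute constant `C` such that for every `A` and all large `x`, all `w` with `(log x)³ ≤ w ≤ (log x)^A`, all `z ≥ w`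
and `2 ≤ T ≤ exp √(loglog x)` with `z T ≤ x`, all classes `a p` and all `y ≥ C x · bound x z`: the proportion of the choices of classes for
the primes in `(w, z]` for which a covering of `[1, y]` exists (with the classes `a p` for `p ≤ w`, `0` for `z < p ≤ x / T` and any classes
for `x / T < p ≤ x`) is at most `256 log x / w`. -/
theorem result : ∃ C : ℝ, 0 < C ∧ ∀ A : ℝ, ∃ x₀ : ℕ, ∀ x y : ℕ, ∀ (w z T : ℝ) (a : ℕ → ℤ), x₀ ≤ x →
    Real.log x ^ 3 ≤ w → w ≤ Real.log x ^ A → w ≤ z →
    2 ≤ T → T ≤ Real.exp (√(Real.log (Real.log x))) → z * T ≤ x →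
    C * x * bound x z ≤ y →
    (((choices w z).filter fun r => Completable x y w z T a r).card : ℝ) ≤
      256 * Real.log x / w * ((choices w z).card : ℝ) := by
  obtain ⟨C, hC, h⟩ := Pool.Agent.Helper13.RS.final
  refine ⟨C, hC, fun A => ?_⟩
  obtain ⟨x₀, h⟩ := h A
  refine ⟨x₀, fun x y w z T a hx h1 h2 h3 h4 h5 h6 h7 => ?_⟩
  have h8 := h x y w z T a hx h1 h2 h3 h4 h5 h6 h7
  have h9 := Pool.Agent.Helper13.RS.card_Om (Pool.Agent.Helper13.RS.Pr w z)
  rw [← h9] at h8
  exact h8

end Pool.Agent.Results.MP_924f75_nt.RandomSieve
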