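import Mathlib
import Pool.Agent.Helper13.JS.Fin

set_option autoImplicit false

namespace Pool.Agent.Results.MP_924f75_nt.ThinScale

open Finset

/-- Every integer `1 ≤ n ≤ y` lies in the class of `a p` modulo `p` for some prime `p ≤ x`. -/
def Covers (x y : ℕ) (a : ℕ → ℤ) : Prop :=
  ∀ n : ℕ, 1 ≤ n → n ≤ y → ∃ p : ℕ, p.Prime ∧ p ≤ x ∧ (n : ℤ) ≡ a p [ZMOD (p : ℤ)]

open Classical in
/-- The sum of `1 / p` over the primes `u < p ≤ v` whose class contains `b`. -/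
noncomputable def onSum (a : ℕ → ℤ) (b : ℤ) (u v : ℝ) : ℝ :=
  ∑ p ∈ (Icc 1 ⌊v⌋₊).filter (fun p : ℕ => p.Prime ∧ u < (p : ℝ) ∧ a p ≡ b [ZMOD (p : ℤ)]),
    1 / (p : ℝ)

open Classical in
/-- The sum of `1 / p` over the primes `u < p ≤ v` whose class does not contain `b`. -/
noncomputable def offSum (a : ℕ → ℤ) (b : ℤ) (u v : ℝ) : ℝ :=
  ∑ p ∈ (Icc 1 ⌊v⌋₊).filter (fun p : ℕ => p.Prime ∧ u < (p : ℝ) ∧ ¬ a p ≡ b [ZMOD (p : ℤ)]),
    1 / (p : ℝ)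

/-- There are absolute `0 < c < 1` and `0 < η < 1` such that for every `K` there is `ε > 0` such
that for every `κ > 0` there are `C`, `x₀` with: for every covering of `[1, y]` by one residue
class `a p` for each prime `p ≤ x` (`x ≥ x₀`), every integer `0 ≤ b ≤ y` and every real `w` with
`x ^ κ ≤ w ≤ x ^ c`, if the sum of `1 / p` over the primes whose class contains `b` is at most `ε`
over `w ^ η < p ≤ w` and at most `K` over `w < p ≤ x ^ c`, then `y ≤ x exp (C (1 + S log x))`,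
where `S` is the sum of `1 / p` over the primes `x ^ c < p ≤ x` whose class does not contain
`b`. Nothing is assumed about the primes up to `w ^ η`. -/
theorem result : ∃ c η : ℝ, 0 < c ∧ c < 1 ∧ 0 < η ∧ η < 1 ∧
    ∀ K : ℝ, ∃ ε : ℝ, 0 < ε ∧ ∀ κ : ℝ, 0 < κ → ∃ C x₀ : ℝ,
      ∀ x y : ℕ, x₀ ≤ x → ∀ a : ℕ → ℤ, Covers x y a → ∀ b : ℕ, b ≤ y →
        ∀ w : ℝ, (x : ℝ) ^ κ ≤ w → w ≤ (x : ℝ) ^ c →
          onSum a b (w ^ η) w ≤ ε → onSum a b w ((x : ℝ) ^ c) ≤ K →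
          (y : ℝ) ≤ x * Real.exp (C * (1 + offSum a b ((x : ℝ) ^ c) x * Real.log x)) := by
  obtain ⟨c, η, hc, hc4, hη, hη1, h1⟩ := Pool.Agent.Helper13.JS.fin
  refine ⟨c, η, hc, by linarith, hη, hη1, fun K => ?_⟩
  obtain ⟨ε, hε, h2⟩ := h1 K
  refine ⟨ε, hε, fun κ hκ => ?_⟩
  obtain ⟨C, x₀, hC, h⟩ := h2 κ hκ
  exact ⟨C, x₀, fun x y hx a hcov b hb w hw1 hw2 hs hs2 =>
    h x y a b w hx hcov hb hw1 hw2 hs hs2⟩

end Pool.Agent.Results.MP_924f75_nt.ThinScale
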